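import Pool.Agent.helper1.CD.Spec

/-!
# Project CD (MP_2e0e07_nt), row PAD: degree one primes in progressions, with density
-/

set_option autoImplicit false

open NumberField IsDedekindDomain Complex Pool.Agent.CH Pool.Agent.GK

namespace Pool.Agent.CD

section prep

variable {F : Type} [Field F] [NumberField F]

theorem PAD_triv {m : ℕ} {ψ : DirichletCharacter ℂ m} (h : Triv F ψ) {p : ℕ} (hp : p.Prime) (hpm : ¬ p ∣ m) : ψ ((p : ℕ) : ZMod m) * (nd F p : ℂ) = (nd F p : ℂ) := by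
  by_cases h0 : nd F p = 0
  · rw [h0, Nat.cast_zero, mul_zero]
  · have h1 : Nonempty {I : Ideal (𝓞 F) // Ideal.absNorm I = p} := by
      by_contra h2
      rw [not_nonempty_iff] at h2
      exact h0 (by unfold nd; exact Nat.card_of_isEmpty)
    obtain ⟨I, hI⟩ := h1
    have hI0 : I ≠ ⊥ := by
      rintro rfl
      rw [Ideal.absNorm_bot] at hI
      exact hp.ne_zero hI.symm
    have h2 : I ⊔ Ideal.span {((m : ℕ) : 𝓞 F)} = ⊤ := by
      rw [Ideal.eq_top_iff_one]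
      have h3 : IsCoprime (p : ℤ) (m : ℤ) := Nat.isCoprime_iff_coprime.2 ((Nat.Prime.coprime_iff_not_dvd hp).2 hpm)
      obtain ⟨u, v, huv⟩ := h3
      have h4 : (u : 𝓞 F) * ((p : ℕ) : 𝓞 F) + (v : 𝓞 F) * ((m : ℕ) : 𝓞 F) = 1 := by exact_mod_cast congrArg (fun x : ℤ => (x : 𝓞 F)) huv
      rw [← h4]
      refine Ideal.add_mem _ (Ideal.mem_sup_left (Ideal.mul_mem_left _ _ ?_)) (Ideal.mem_sup_right (Ideal.mul_mem_left _ _ (Ideal.mem_span_singleton_self _)))
      rw [← hI]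
      exact Ideal.absNorm_mem I
    have h3 := h I hI0 h2
    unfold nch at h3
    rw [if_neg hI0, hI] at h3
    rw [h3, one_mul]

end prep

theorem PAD (hLBD : LBD_stmt) (hTRC : TRC_stmt) (hHCE : HCE_stmt) (hLGB : LGB_stmt) (hLCH : LCH_stmt) (hKFV : KFV_stmt) (hTRV : TRV_stmt)
    (hNVS : NVS_stmt) : PAD_stmt := by
  intro F M _ _ _ _ _ m r z g hm hz hadj hgz
  have : NeZero m := ⟨hm.ne'⟩
  have hcop : r.Coprime m := by
    have h1 : IsPrimitiveRoot (g z) m := hz.map_of_injective g.injective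
    rw [hgz, hz.pow_iff_coprime hm] at h1
    exact h1
  have hunit : IsUnit ((r : ℕ) : ZMod m) := (ZMod.isUnit_iff_coprime r m).2 hcop
  choose χ hχCM hχp hχL using fun ψ : DirichletCharacter ℂ m => hLCH F m ψ hm
  obtain ⟨CB, hCB⟩ := hLGB F
  obtain ⟨CK, δ, hδ, hK⟩ := hKFV F
  classical
  set Bad : Finset Nat.Primes := m.divisors.preimage (fun p : Nat.Primes => (p : ℕ)) (Subtype.coe_injective.injOn) with hBad
  have hBadiff : ∀ p : Nat.Primes, p ∉ Bad → ¬ (p : ℕ) ∣ m := by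
    intro p hp
    rw [hBad, Finset.mem_preimage, Nat.mem_divisors, not_and_or] at hp
    exact hp.resolve_right (not_not.2 hm.ne')
  let a : DirichletCharacter ℂ m → ℝ → Nat.Primes → ℂ := fun ψ s p => cc (χ ψ) p * (((p : ℕ) : ℂ) ^ (-(s : ℂ)))
  have ha : ∀ ψ s p, a ψ s p = cc (χ ψ) p * (((p : ℕ) : ℂ) ^ (-(s : ℂ))) := fun _ _ _ => rfl
  let c : DirichletCharacter ℂ m → ℂ := fun ψ => ψ (((r : ℕ) : ZMod m)⁻¹)
  have hcdef : ∀ ψ, c ψ = ψ (((r : ℕ) : ZMod m)⁻¹) := fun _ => rfl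
  have hc1 : ∀ ψ, ‖c ψ‖ ≤ 1 := fun ψ => DirichletCharacter.norm_le_one ψ _
  have hcr : ∀ ψ : DirichletCharacter ℂ m, ψ ((r : ℕ) : ZMod m) = 1 → c ψ = 1 := by
    intro ψ h
    have h1 : ((r : ℕ) : ZMod m) * ((r : ℕ) : ZMod m)⁻¹ = 1 := ZMod.coe_mul_inv_eq_one r hcop
    have h2 : ψ ((r : ℕ) : ZMod m) * c ψ = 1 := by rw [hcdef, ← map_mul, h1, map_one]
    rwa [h, one_mul] at h2
  have hsum : ∀ ψ (s : ℝ), 1 < s → Summable (a ψ s) := fun ψ s hs => (hCB (χ ψ) (hχCM ψ) s hs).1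
  have hpow : ∀ (p : Nat.Primes) (s : ℝ), ((p : ℕ) : ℂ) ^ (-(s : ℂ)) = ((((p : ℕ) : ℝ) ^ (-s) : ℝ) : ℂ) := by
    intro p s
    rw [Complex.ofReal_cpow (Nat.cast_nonneg _)]
    push_cast
    rfl
  have hpow0 : ∀ (p : Nat.Primes) (s : ℝ), 0 ≤ ((p : ℕ) : ℝ) ^ (-s) := fun p s => Real.rpow_nonneg (Nat.cast_nonneg _) _
  have hpow1 : ∀ (p : Nat.Primes) (s : ℝ), 1 < s → ((p : ℕ) : ℝ) ^ (-s) ≤ 1 := fun p s hs =>
    Real.rpow_le_one_of_one_le_of_nonpos (by exact_mod_cast p.2.one_lt.le) (by linarith)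
  have hnorm : ∀ ψ s p, 1 < s → ‖a ψ s p‖ ≤ ‖cc (χ ψ) p‖ := by
    intro ψ s p hs
    rw [ha, norm_mul, hpow, Complex.norm_real, Real.norm_of_nonneg (hpow0 p s)]
    exact mul_le_of_le_one_right (norm_nonneg _) (hpow1 p s hs)
  -- the terms of the progression
  obtain ⟨G, hG⟩ : ∃ G : ℝ → Nat.Primes → ℝ, G = fun (s : ℝ) (p : Nat.Primes) => (nd F p : ℝ) * ((p : ℕ) : ℝ) ^ (-s) := ⟨_, rfl⟩
  have hG0 : ∀ s p, 0 ≤ G s p := fun s p => by
    rw [hG]
    exact mul_nonneg (Nat.cast_nonneg _) (hpow0 p s)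
  obtain ⟨R, hR⟩ : ∃ R : ℝ → Nat.Primes → ℝ, R = fun (s : ℝ) (p : Nat.Primes) => if (p : ℕ) ≡ r [MOD m] then G s p else 0 := ⟨_, rfl⟩
  have hR0 : ∀ s p, 0 ≤ R s p := fun s p => by
    rw [hR]
    dsimp only
    split_ifs
    · exact hG0 s p
    · exact le_rfl
  have hRG : ∀ s p, R s p ≤ G s p := fun s p => by
    rw [hR]
    dsimp only
    split_ifs
    · exact le_rfl
    · exact hG0 s p
  have hφ : 0 < (m.totient : ℝ) := by exact_mod_cast Nat.totient_pos.2 hm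
  have horth : ∀ (s : ℝ) (p : Nat.Primes), p ∉ Bad → ∑ ψ : DirichletCharacter ℂ m, c ψ * a ψ s p = ((m.totient * R s p : ℝ) : ℂ) := by
    intro s p hp
    have h1 : ∀ ψ, c ψ * a ψ s p = (ψ (((r : ℕ) : ZMod m)⁻¹) * ψ ((p : ℕ) : ZMod m)) * ((nd F p : ℂ) * (((p : ℕ) : ℂ) ^ (-(s : ℂ)))) := by
      intro ψ
      rw [ha, hχp ψ p p.2 (hBadiff p hp), hcdef]
      ring
    rw [Finset.sum_congr rfl fun ψ _ => h1 ψ, ← Finset.sum_mul, DirichletCharacter.sum_char_inv_mul_char_eq ℂ hunit, hR, hG]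
    dsimp only
    by_cases h2 : (p : ℕ) ≡ r [MOD m]
    · have h3 : ((r : ℕ) : ZMod m) = ((p : ℕ) : ZMod m) := ((ZMod.natCast_eq_natCast_iff _ _ _).2 h2).symm
      rw [if_pos h3, if_pos h2, hpow]
      push_cast
      rfl
    · have h3 : ((r : ℕ) : ZMod m) ≠ ((p : ℕ) : ZMod m) := fun h => h2 ((ZMod.natCast_eq_natCast_iff _ _ _).1 h.symm)
      rw [if_neg h3, if_neg h2]
      simp
  -- upper bound for the sum
  obtain ⟨E, hE⟩ : ∃ E : Nat.Primes → ℝ, E = fun p => if p ∈ Bad then ∑ ψ : DirichletCharacter ℂ m, ‖cc (χ ψ) p‖ else 0 := ⟨_, rfl⟩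
  have hE0 : ∀ p, p ∉ Bad → E p = 0 := fun p hp => by rw [hE]; exact if_neg hp
  have hE1 : ∀ p, p ∈ Bad → E p = ∑ ψ : DirichletCharacter ℂ m, ‖cc (χ ψ) p‖ := fun p hp => by rw [hE]; exact if_pos hp
  have hEs : Summable E := summable_of_ne_finset_zero (s := Bad) hE0
  have hup : ∀ s : ℝ, 1 < s → s < 1 + δ → ∑ ψ : DirichletCharacter ℂ m, (c ψ * ∑' p, a ψ s p).re ≤ m.totient * (∑' p, R s p) + ∑' p, E p := by
    intro s hs hs'
    have hGs : Summable (G s) := by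
      rw [hG]
      exact (hK s hs hs').1
    have hRs : Summable (R s) := Summable.of_nonneg_of_le (hR0 s) (hRG s) hGs
    have h1 : ∑ ψ : DirichletCharacter ℂ m, (c ψ * ∑' p, a ψ s p).re = (∑' p, ∑ ψ : DirichletCharacter ℂ m, c ψ * a ψ s p).re := by
      rw [← Complex.re_sum, Finset.sum_congr rfl fun ψ _ => (tsum_mul_left (a := c ψ) (f := a ψ s)).symm,
        ← Summable.tsum_finsetSum (fun ψ _ => (hsum ψ s hs).mul_left _)]
    have h2 : Summable fun p => ∑ ψ : DirichletCharacter ℂ m, c ψ * a ψ s p := summable_sum fun ψ _ => (hsum ψ s hs).mul_left _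
    have h3 : ∀ p, (∑ ψ : DirichletCharacter ℂ m, c ψ * a ψ s p).re ≤ m.totient * R s p + E p := by
      intro p
      by_cases hp : p ∈ Bad
      · have h4 : (∑ ψ : DirichletCharacter ℂ m, c ψ * a ψ s p).re ≤ ∑ ψ : DirichletCharacter ℂ m, ‖cc (χ ψ) p‖ := by
          refine (Complex.re_le_norm _).trans ((norm_sum_le _ _).trans (Finset.sum_le_sum fun ψ _ => ?_))
          rw [norm_mul]
          exact (mul_le_of_le_one_left (norm_nonneg _) (hc1 ψ)).trans (hnorm ψ s p hs)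
        rw [hE1 p hp]
        have h5 : 0 ≤ m.totient * R s p := mul_nonneg hφ.le (hR0 s p)
        linarith
      · rw [horth s p hp, Complex.ofReal_re, hE0 p hp, add_zero]
    have h4 := Summable.tsum_le_tsum h3 (Complex.hasSum_re h2.hasSum).summable ((hRs.mul_left _).add hEs)
    rw [Summable.tsum_add (hRs.mul_left _) hEs, tsum_mul_left, ← Complex.re_tsum h2] at h4
    rw [h1]
    exact h4
  -- lower bound
  have hlow : ∀ ψ : DirichletCharacter ℂ m, ∃ C d : ℝ, 0 < d ∧ ∀ s : ℝ, 1 < s → s < 1 + d →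
      (if Triv F ψ then -Real.log (s - 1) else 0) - C ≤ (c ψ * ∑' p, a ψ s p).re := by
    intro ψ
    by_cases hT : Triv F ψ
    · refine ⟨CK + ∑ p ∈ Bad, ((nd F p : ℝ) + ‖cc (χ ψ) p‖), δ, hδ, fun s hs hs' => ?_⟩
      rw [if_pos hT, hcr ψ (hTRV F M m z ψ hm hz hadj hT g r hgz), one_mul]
      have hGs : Summable (G s) := by
        rw [hG]
        exact (hK s hs hs').1
      have h1 : (∑' p, a ψ s p).re = ∑' p, (a ψ s p).re := Complex.re_tsum (hsum ψ s hs)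
      have h2 : Summable fun p => (a ψ s p).re := (Complex.hasSum_re (hsum ψ s hs).hasSum).summable
      set D : Nat.Primes → ℝ := fun p => if p ∈ Bad then ((nd F p : ℝ) + ‖cc (χ ψ) p‖) else 0 with hD
      have hD0 : ∀ p, p ∉ Bad → D p = 0 := fun p hp => if_neg hp
      have hD1 : ∀ p, p ∈ Bad → D p = (nd F p : ℝ) + ‖cc (χ ψ) p‖ := fun p hp => if_pos hp
      have hDs : Summable D := summable_of_ne_finset_zero (s := Bad) hD0
      have hDt : ∑' p, D p = ∑ p ∈ Bad, ((nd F p : ℝ) + ‖cc (χ ψ) p‖) := by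
        rw [tsum_eq_sum (s := Bad) hD0]
        exact Finset.sum_congr rfl hD1
      have h3 : ∀ p : Nat.Primes, G s p - D p ≤ (a ψ s p).re := by
        intro p
        by_cases hp : p ∈ Bad
        · rw [hD1 p hp]
          have h4 := (Complex.abs_re_le_norm (a ψ s p)).trans (hnorm ψ s p hs)
          have h5 := (abs_le.1 h4).1
          have h6 : G s p ≤ nd F p := by
            rw [hG]
            exact mul_le_of_le_one_right (Nat.cast_nonneg _) (hpow1 p s hs)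
          linarith
        · rw [hD0 p hp, sub_zero, ha, hχp ψ p p.2 (hBadiff p hp), PAD_triv hT p.2 (hBadiff p hp), hpow]
          have h4 : ((nd F p : ℂ) * ((((p : ℕ) : ℝ) ^ (-s) : ℝ) : ℂ)) = ((G s p : ℝ) : ℂ) := by
            rw [hG]
            push_cast
            rfl
          rw [h4, Complex.ofReal_re]
      have h4 := Summable.tsum_le_tsum h3 (hGs.sub hDs) h2
      rw [Summable.tsum_sub hGs hDs, hDt, ← h1] at h4
      have h5 := (abs_le.1 (hK s hs hs').2).1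
      have h6 : ∑' p, G s p = ∑' p : Nat.Primes, (nd F p : ℝ) * ((p : ℕ) : ℝ) ^ (-s) := by rw [hG]
      rw [← h6] at h5
      linarith
    · obtain ⟨L, hL, hLs⟩ := hχL ψ hT
      have hL1 : L 1 ≠ 0 := hNVS F M m z ψ (χ ψ) L hm hz hadj hT (hχCM ψ) (hχp ψ) hL hLs
      obtain ⟨C, d, hd, hC⟩ := hLBD F (χ ψ) L (hχCM ψ) hL hLs hL1
      refine ⟨C, d, hd, fun s hs hs' => ?_⟩
      rw [if_neg hT]
      have h5 : ‖∑' p, a ψ s p‖ ≤ C := hC s hs hs'
      have h6 : ‖c ψ * ∑' p, a ψ s p‖ ≤ C := by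
        rw [norm_mul]
        exact (mul_le_of_le_one_left (norm_nonneg _) (hc1 ψ)).trans h5
      have h7 := (abs_le.1 ((Complex.abs_re_le_norm (c ψ * ∑' p, a ψ s p)).trans h6)).1
      linarith
  choose C d hd hC using hlow
  -- the number of trivial characters
  have hcard : (m.totient : ℝ) ≤ ((Finset.univ.filter fun ψ : DirichletCharacter ℂ m => Triv F ψ).card : ℝ) * (Module.finrank F M : ℝ) := by
    have h1 := hHCE F M m z hm hz hadj
    have h2 : Nat.card {ψ : DirichletCharacter ℂ m // ∀ (g : M ≃ₐ[F] M) (r : ℕ), g z = z ^ r → ψ ((r : ℕ) : ZMod m) = 1} ≤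
        (Finset.univ.filter fun ψ : DirichletCharacter ℂ m => Triv F ψ).card := by
      rw [Nat.card_eq_fintype_card, Fintype.card_subtype]
      apply Finset.card_le_card
      intro ψ hψ
      rw [Finset.mem_filter] at hψ ⊢
      exact ⟨Finset.mem_univ _, hTRC F M m z ψ hm hz hadj hψ.2⟩
    exact_mod_cast h1.trans (Nat.mul_le_mul_right _ h2)
  obtain ⟨d0, hd0, hd1⟩ : ∃ d0 : ℝ, 0 < d0 ∧ ∀ ψ : DirichletCharacter ℂ m, d0 ≤ d ψ := by
    obtain ⟨ψ0, _, hψ0⟩ := Finset.exists_min_image (Finset.univ : Finset (DirichletCharacter ℂ m)) d ⟨1, Finset.mem_univ _⟩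
    exact ⟨d ψ0, hd ψ0, fun ψ => hψ0 ψ (Finset.mem_univ _)⟩
  refine ⟨(Module.finrank F M : ℝ) * ((∑' p, E p) + ∑ ψ, C ψ) / m.totient, min (min d0 δ) 1, lt_min (lt_min hd0 hδ) one_pos, fun s hs hs' => ?_⟩
  have hs1 : s < 1 + d0 := lt_of_lt_of_le hs' (by linarith [min_le_left (min d0 δ) 1, min_le_left d0 δ])
  have hs2 : s < 1 + δ := lt_of_lt_of_le hs' (by linarith [min_le_left (min d0 δ) 1, min_le_right d0 δ])
  have hs3 : s < 1 + 1 := lt_of_lt_of_le hs' (by linarith [min_le_right (min d0 δ) 1])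
  have hlog : 0 ≤ -Real.log (s - 1) := by
    have := Real.log_nonpos (by linarith : 0 ≤ s - 1) (by linarith)
    linarith
  have h1 := Finset.sum_le_sum fun ψ (_ : ψ ∈ (Finset.univ : Finset (DirichletCharacter ℂ m))) => hC ψ s hs (hs1.trans_le (by linarith [hd1 ψ]))
  rw [Finset.sum_sub_distrib, ← Finset.sum_filter, Finset.sum_const, nsmul_eq_mul] at h1
  have h2 := hup s hs hs2
  have h3 : ∑' p, R s p = ∑' p : Nat.Primes, if (p : ℕ) ≡ r [MOD m] then (nd F p : ℝ) * ((p : ℕ) : ℝ) ^ (-s) else 0 := by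
    rw [hR, hG]
  rw [← h3]
  have h4 : m.totient * -Real.log (s - 1) ≤ (Module.finrank F M : ℝ) *
      (m.totient * (∑' p, R s p) + ((∑' p, E p) + ∑ ψ, C ψ)) := by
    have h5 : (m.totient : ℝ) * -Real.log (s - 1) ≤ (((Finset.univ.filter fun ψ : DirichletCharacter ℂ m => Triv F ψ).card : ℝ) * (Module.finrank F M : ℝ)) * -Real.log (s - 1) :=
      mul_le_mul_of_nonneg_right hcard hlog
    have h6 : (Module.finrank F M : ℝ) * (((Finset.univ.filter fun ψ : DirichletCharacter ℂ m => Triv F ψ).card : ℝ) * -Real.log (s - 1)) ≤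
        (Module.finrank F M : ℝ) * (m.totient * (∑' p, R s p) + ((∑' p, E p) + ∑ ψ, C ψ)) :=
      mul_le_mul_of_nonneg_left (by linarith) (Nat.cast_nonneg _)
    calc m.totient * -Real.log (s - 1) ≤ _ := h5
      _ = (Module.finrank F M : ℝ) * (((Finset.univ.filter fun ψ : DirichletCharacter ℂ m => Triv F ψ).card : ℝ) * -Real.log (s - 1)) := by ring
      _ ≤ _ := h6
  have h5 : (m.totient : ℝ) * ((Module.finrank F M : ℝ) * (∑' p, R s p) + (Module.finrank F M : ℝ) * ((∑' p, E p) + ∑ ψ, C ψ) / m.totient) =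
      (Module.finrank F M : ℝ) * (m.totient * (∑' p, R s p) + ((∑' p, E p) + ∑ ψ, C ψ)) := by
    field_simp
  rw [← h5] at h4
  exact le_of_mul_le_mul_left h4 hφ

end Pool.Agent.CD
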